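import Pool.Agent.E8helper74.ZG.Stmt

/-!
# Zagier's conjecture: reduction to the new functions of subfields
-/

set_option autoImplicit false

namespace Pool.Agent.Results.MP_f01982_nt.SubfieldReductionH74

open NumberField Pool.Agent.E8helper74.ZG

theorem result (n : ℕ) (hn : 2 ≤ n) (F : Type) [Field F] [NumberField F] :
    Reduction n F ∧
    (Zagier n F → NonVanishing n F) ∧ (NonVanishing n F → Enough n F) ∧
    (SmallTrans n F → OneElement n F → Enough n F) ∧
    (Rationality n F → NonVanishing n F → Zagier n F) ∧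
    (IsAbelianGalois ℚ F → CyclicReduction n F) ∧
    (IsGalois ℚ F → IsCyclic (F ≃ₐ[ℚ] F) → HasNew n F → NonVanishing n F → CharCond n F) ∧
    (HasNew n F → Restricted (F ≃ₐ[ℚ] F) ∧ DimProperty n F ∧ PlaceProperty n F) := by
  refine ⟨reduction_holds hn F, zagier_imp hn, enough_of_nonvan, enough_of_small,
    fun h => (zagier_iff hn h).mpr, fun _ => cyclicReduction_holds hn F,
    fun _ hc hE h => char_of_nonvan hc hE h, fun h => ⟨restricted_of_fpf (hasFPF_of_new h),
      ⟨dNum_pos h, fun E _ _ φ hφ => dNum_lt h φ hφ⟩, not_cm h, fun _ => galois_case h⟩⟩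

end Pool.Agent.Results.MP_f01982_nt.SubfieldReductionH74
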